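import Mathlib

namespace Pool.Agent.Results.MP_9b64ae_co.Counter

open Finset

/-- The operation `S` on infinite binary words (letters `0, 1` as integers). -/
def S (u : ℕ → ℤ) : ℕ → ℤ := fun n => (u n + u (n + 1)) % 2

/-- The factor of `u` of length `m` starting at position `i`. -/
def factor (u : ℕ → ℤ) (i m : ℕ) : List ℤ := (List.range m).map fun j => u (i + j)

/-- A Sturmian word: binary, with exactly `m + 1` distinct factors of each length `m`. -/
def Sturmian (u : ℕ → ℤ) : Prop :=
  (∀ n, u n = 0 ∨ u n = 1) ∧ ∀ m, (Set.range fun i => factor u i m).ncard = m + 1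

/-- The set of distinct palindromic factors of a finite word (the empty word included). -/
def palFactors (w : List ℤ) : Set (List ℤ) := {v | v <:+: w ∧ v.reverse = v}

/-- An infinite word is rich if each finite factor `w` has `|w| + 1` palindromic factors. -/
def Rich (u : ℕ → ℤ) : Prop :=
  ∀ i m, (palFactors (factor u i m)).ncard = (factor u i m).length + 1

lemma pal_eq (w : List ℤ) : palFactors w =
    ↑(((w.tails.flatMap List.inits).filter fun v => v.reverse = v).toFinset) := by
  ext v
  simp only [palFactors, Set.mem_setOf_eq, List.coe_toFinset, List.mem_filter, List.mem_flatMap,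
    List.mem_tails, List.mem_inits, decide_eq_true_eq, List.infix_iff_prefix_suffix]
  constructor
  · rintro ⟨⟨t, h1, h2⟩, h⟩; exact ⟨⟨t, h2, h1⟩, h⟩
  · rintro ⟨⟨t, h1, h2⟩, h⟩; exact ⟨⟨t, h2, h1⟩, h⟩

lemma iter_congr : ∀ (k N : ℕ) (u v : ℕ → ℤ), (∀ n ≤ N + k, u n = v n) →
    ∀ n ≤ N, (S^[k] u) n = (S^[k] v) n := by
  intro k
  induction k with
  | zero => intro N u v h n hn; exact h n hn
  | succ k ih =>
    intro N u v h n hn
    rw [Function.iterate_succ_apply, Function.iterate_succ_apply]
    refine ih N _ _ (fun n hn => ?_) n hn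
    simp only [S]; rw [h n (by omega), h (n + 1) (by omega)]

lemma dens (α : ℝ) (hα : Irrational α) (p q : ℝ) (hp : 0 ≤ p) (hpq : p < q) (hq : q ≤ 1) :
    ∃ i : ℕ, p < Int.fract ((i : ℝ) * α) ∧ Int.fract ((i : ℝ) * α) < q := by
  have h1 : DenseRange (fun n : ℤ => n • (α : AddCircle (1 : ℝ))) :=
    AddCircle.denseRange_zsmul_coe_iff.2 (by simpa using hα)
  have h2 : DenseRange (fun n : ℕ => n • (α : AddCircle (1 : ℝ))) :=
    denseRange_zsmul_iff_nsmul.1 h1
  have ho : IsOpen (((↑) : ℝ → AddCircle (1 : ℝ)) '' Set.Ioo p q) :=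
    QuotientAddGroup.isOpenMap_coe _ isOpen_Ioo
  obtain ⟨i, y, hy, e⟩ := h2.exists_mem_open ho ((Set.nonempty_Ioo.2 hpq).image _)
  have e' : (y : AddCircle (1 : ℝ)) = (((i : ℝ) * α : ℝ) : AddCircle (1 : ℝ)) := by
    rw [e, ← nsmul_eq_mul]; rfl
  obtain ⟨z, hz⟩ := AddSubgroup.mem_zmultiples_iff.1 (QuotientAddGroup.eq.1 e')
  have : Int.fract ((i : ℝ) * α) = y :=
    Int.fract_eq_iff.2 ⟨by linarith [hy.1], by linarith [hy.2], z, by
      simp only [zsmul_eq_mul, mul_one] at hz; linarith⟩
  exact ⟨i, by rw [this]; exact hy.1, by rw [this]; exact hy.2⟩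

noncomputable def mech (α : ℝ) : ℕ → ℤ := fun n => ⌊((n + 1 : ℕ) : ℝ) * α⌋ - ⌊(n : ℝ) * α⌋

noncomputable def P (α : ℝ) (i j : ℕ) : ℤ := ⌊Int.fract ((i : ℝ) * α) + (j : ℝ) * α⌋

lemma P_eq (α : ℝ) (i j : ℕ) : P α i j = ⌊((i + j : ℕ) : ℝ) * α⌋ - ⌊(i : ℝ) * α⌋ := by
  have : ((i + j : ℕ) : ℝ) * α =
      ((⌊(i : ℝ) * α⌋ : ℤ) : ℝ) + (Int.fract ((i : ℝ) * α) + (j : ℝ) * α) := by
    rw [← add_assoc, Int.floor_add_fract]; push_cast; ring
  rw [this, Int.floor_intCast_add, P]; ring

lemma mech_eq (α : ℝ) (i j : ℕ) : mech α (i + j) = P α i (j + 1) - P α i j := by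
  rw [P_eq, P_eq, mech, add_assoc]; ring

lemma fac_iff (α : ℝ) (i i' m : ℕ) :
    factor (mech α) i m = factor (mech α) i' m ↔ ∀ j ≤ m, P α i j = P α i' j := by
  simp only [factor, List.map_inj_left, List.mem_range, mech_eq]
  constructor
  · intro h j
    induction j with
    | zero => intro _; simp [P_eq]
    | succ j ih => intro hj; have := h j (by omega); have := ih (by omega); omega
  · intro h j hj; rw [h j (by omega), h (j + 1) (by omega)]

lemma P_bd (α : ℝ) (i j : ℕ) : ⌊(j : ℝ) * α⌋ ≤ P α i j ∧ P α i j ≤ ⌊(j : ℝ) * α⌋ + 1 := by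
  have h0 := Int.fract_nonneg ((i : ℝ) * α)
  have h1 := Int.fract_lt_one ((i : ℝ) * α)
  refine ⟨Int.floor_le_floor (by linarith), ?_⟩
  rw [← Int.floor_add_one]; exact Int.floor_le_floor (by linarith)

lemma sturm (α : ℝ) (hα : Irrational α) (h0 : 0 < α) (h1 : α < 1) : Sturmian (mech α) := by
  classical
  refine ⟨fun n => ?_, fun m => ?_⟩
  · have a : ⌊(n : ℝ) * α⌋ ≤ ⌊((n + 1 : ℕ) : ℝ) * α⌋ :=
      Int.floor_le_floor (by push_cast; nlinarith)
    have b : ⌊((n + 1 : ℕ) : ℝ) * α⌋ ≤ ⌊(n : ℝ) * α⌋ + 1 := by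
      rw [← Int.floor_add_one]; exact Int.floor_le_floor (by push_cast; nlinarith)
    simp only [mech]; omega
  · let σ : ℕ → ℤ := fun i => ∑ j ∈ range m, (P α i (j + 1) - ⌊((j + 1 : ℕ) : ℝ) * α⌋)
    have hσ : ∀ i, σ i ∈ Finset.Icc (0 : ℤ) m := by
      intro i
      rw [mem_Icc]
      refine ⟨sum_nonneg fun j _ => by have := P_bd α i (j + 1); omega, ?_⟩
      calc σ i ≤ ∑ _j ∈ range m, (1 : ℤ) :=
            sum_le_sum fun j _ => by have := P_bd α i (j + 1); omega
        _ = m := by simp
    have hle : ∀ i i' : ℕ, Int.fract ((i : ℝ) * α) ≤ Int.fract ((i' : ℝ) * α) → σ i = σ i' →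
        factor (mech α) i m = factor (mech α) i' m := by
      intro i i' h e
      rw [fac_iff]
      have e' : ∑ j ∈ range m, (P α i (j + 1) - ⌊((j + 1 : ℕ) : ℝ) * α⌋) =
          ∑ j ∈ range m, (P α i' (j + 1) - ⌊((j + 1 : ℕ) : ℝ) * α⌋) := e
      have := (sum_eq_sum_iff_of_le (fun j _ => by
        have : P α i (j + 1) ≤ P α i' (j + 1) := Int.floor_le_floor (by linarith)
        exact sub_le_sub_right this _)).1 e'
      intro j hj
      rcases j with _ | j
      · simp [P_eq]
      · have := this j (mem_range.2 (by omega)); omega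
    have hinj : ∀ i i', σ i = σ i' → factor (mech α) i m = factor (mech α) i' m := by
      intro i i' e
      rcases le_total (Int.fract ((i : ℝ) * α)) (Int.fract ((i' : ℝ) * α)) with h | h
      · exact hle i i' h e
      · exact (hle i' i h e.symm).symm
    let g : ℤ → List ℤ := fun r => if h : ∃ i, σ i = r then factor (mech α) h.choose m else []
    have hsub : (Set.range fun i => factor (mech α) i m) ⊆ g '' ↑(Finset.Icc (0 : ℤ) m) := by
      rintro _ ⟨i, rfl⟩
      have h : ∃ i', σ i' = σ i := ⟨i, rfl⟩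
      refine ⟨σ i, hσ i, ?_⟩
      simp only [g, dif_pos h]
      exact hinj _ _ h.choose_spec
    have hfin : (Set.range fun i => factor (mech α) i m).Finite :=
      ((Finset.finite_toSet _).image g).subset hsub
    apply le_antisymm
    · refine (Set.ncard_le_ncard hsub ((Finset.finite_toSet _).image g)).trans
        ((Set.ncard_image_le (Finset.finite_toSet _)).trans ?_)
      rw [Set.ncard_coe_finset, Int.card_Icc]; omega
    · let t : ℕ → ℝ := fun j => Int.fract (-((j : ℝ) * α))
      have ht : ∀ a b, t a = t b → a = b := by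
        intro a b e
        obtain ⟨z, hz⟩ := Int.fract_eq_fract.1 e
        by_contra hne
        have hne' : ((b : ℤ) - a) ≠ 0 := by omega
        exact (hα.intCast_mul hne').ne_int z (by push_cast; linarith)
      have ex : ∀ j, ∃ i : ℕ, t j < Int.fract ((i : ℝ) * α) ∧
          ∀ b ≤ m, t j < t b → Int.fract ((i : ℝ) * α) < t b := by
        intro j
        let T : Finset ℝ := insert 1 (((range (m + 1)).image t).filter fun y => t j < y)
        have hT : T.Nonempty := insert_nonempty _ _
        have hlt : t j < T.min' hT := by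
          rw [Finset.lt_min'_iff]
          intro y hy
          rcases mem_insert.1 hy with e | e
          · rw [e]; exact Int.fract_lt_one _
          · exact (mem_filter.1 e).2
        obtain ⟨i, a, b⟩ := dens α hα (t j) (T.min' hT) (Int.fract_nonneg _) hlt
          (min'_le _ _ (mem_insert_self _ _))
        refine ⟨i, a, fun c hc h => b.trans_le (min'_le _ _ (mem_insert_of_mem
          (mem_filter.2 ⟨mem_image_of_mem _ (mem_range.2 (by omega)), h⟩)))⟩
      choose ι h1 h2 using ex
      have key : ∀ a b, b ≤ m → t a < t b →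
          factor (mech α) (ι a) m ≠ factor (mech α) (ι b) m := by
        intro a b hb h e
        have e1 := (fac_iff α _ _ _).1 e b hb
        have c : t b + (b : ℝ) * α = ((-⌊-((b : ℝ) * α)⌋ : ℤ) : ℝ) := by
          simp only [t, Int.fract]; push_cast; ring
        have l1 : P α (ι a) b < -⌊-((b : ℝ) * α)⌋ :=
          Int.floor_lt.2 (by have := h2 a b hb h; linarith)
        have l2 : -⌊-((b : ℝ) * α)⌋ ≤ P α (ι b) b :=
          Int.le_floor.2 (by have := h1 b; linarith)
        omega
      have := Set.ncard_le_ncard_of_injOn (s := ↑(range (m + 1)))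
        (t := Set.range fun i => factor (mech α) i m)
        (fun j => factor (mech α) (ι j) m) (fun j _ => ⟨ι j, rfl⟩) (by
          intro a ha b hb e
          have ha' : a ≤ m := by have := mem_range.1 (mem_coe.1 ha); omega
          have hb' : b ≤ m := by have := mem_range.1 (mem_coe.1 hb); omega
          rcases lt_trichotomy (t a) (t b) with h | h | h
          · exact absurd e (key a b hb' h)
          · exact ht a b h
          · exact absurd e.symm (key b a ha' h)) hfin
      rwa [Set.ncard_coe_finset, card_range] at this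

def v : ℕ → ℤ := fun n => ((n + 1 : ℕ) : ℤ) * 41421 / 100000 - (n : ℤ) * 41421 / 100000

theorem result : ¬ ∀ (u : ℕ → ℤ) (k : ℕ), Sturmian u → 1 ≤ k → Rich (S^[k] u) := by
  intro h
  have lo : (1.41421 : ℝ) < √2 := Real.lt_sqrt_of_sq_lt (by norm_num)
  have hi : √2 < (1.41422 : ℝ) := Real.sqrt_lt' (by norm_num) |>.2 (by norm_num)
  have hα : Irrational (√2 - 1) := by simpa using irrational_sqrt_two.sub_natCast 1
  have hs := sturm (√2 - 1) hα (by linarith) (by linarith)
  have fl : ∀ n : ℕ, n ≤ 21 → ⌊(n : ℝ) * (√2 - 1)⌋ = (n : ℤ) * 41421 / 100000 := by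
    intro n hn
    rw [Int.floor_eq_iff]
    interval_cases n <;> norm_num <;> (try constructor) <;> linarith
  have h1 := h _ 6 hs (by norm_num) 1 12
  have e : factor (S^[6] (mech (√2 - 1))) 1 12 = factor (S^[6] v) 1 12 := by
    simp only [factor, List.map_inj_left, List.mem_range]
    intro j hj
    refine iter_congr 6 13 _ _ (fun n hn => ?_) _ (by omega)
    simp only [mech, v]; rw [fl n (by omega), fl (n + 1) (by omega)]
  rw [e, pal_eq, Set.ncard_coe_finset] at h1
  revert h1
  decide +kernel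

end Pool.Agent.Results.MP_9b64ae_co.Counter
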